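/-
helper58: module CO (finite orbits lemma) of helper10's board PS.
-/
import Pool.Agent.H10.PS.Targets

set_option autoImplicit false

open MeasureTheory Filter Topology

namespace Pool.Agent.H58.PS

open Pool.Agent.H10.PS

theorem CO : T_CO := by
  intro X _ Γ _ _ _ μ hμ hmeas hinv hfix idx hidx X₀ hX₀ hX₀inv hinj
  -- a measurable invariant full subset
  set T : Set X := toMeasurable μ X₀ᶜ with hT
  have hTm : MeasurableSet T := measurableSet_toMeasurable _ _
  have hT0 : μ T = 0 := by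
    rw [hT, measure_toMeasurable]; exact hX₀
  set X₂ : Set X := ⋂ g : Γ, (fun x : X => g • x) ⁻¹' Tᶜ with hX₂
  have hX₂m : MeasurableSet X₂ :=
    MeasurableSet.iInter fun g => (hmeas g) hTm.compl
  have hX₂sub : ∀ x ∈ X₂, x ∈ X₀ := by
    intro x hx
    have h1 := Set.mem_iInter.1 hx 1
    simp only [Set.mem_preimage, one_smul, Set.mem_compl_iff] at h1
    by_contra hc
    exact h1 (subset_toMeasurable μ X₀ᶜ hc)
  have hX₂ae : ∀ᵐ x ∂μ, x ∈ X₂ := by
    simp only [hX₂, Set.mem_iInter]
    rw [ae_all_iff]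
    intro g
    have h1 : μ ((fun x : X => g • x) ⁻¹' T) = 0 := by
      have h2 := Measure.map_apply (μ := μ) (hmeas g) hTm
      rw [hinv g] at h2
      rw [← h2, hT0]
    rw [ae_iff]
    have h3 : {a | ¬a ∈ (fun x : X => g • x) ⁻¹' Tᶜ} = (fun x : X => g • x) ⁻¹' T := by
      ext x; simp
    rw [h3, h1]
  obtain ⟨e, he⟩ := exists_surjective_nat Γ
  -- the sets
  set Z : ℕ → Set X := fun n => X₂ ∩ idx ⁻¹' {n} with hZ
  have hZm : ∀ n, MeasurableSet (Z n) := fun n => hX₂m.inter (hidx (measurableSet_singleton n))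
  have hZone : ∀ n x, x ∈ Z n → ∀ g : Γ, g • x ∈ Z n → g • x = x := by
    intro n x hx g hg
    exact hinj x (hX₂sub x hx.1) g (by
      have h1 : idx x = n := hx.2
      have h2 : idx (g • x) = n := hg.2
      rw [h1, h2])
  set B : ℕ → ℕ → Set X := fun n k => Z n ∩ ⋂ j ∈ Finset.range k, {x | e k • x = e j • x}ᶜ with hB
  have hEqm : ∀ g h : Γ, MeasurableSet {x : X | g • x = h • x} := by
    intro g h
    have : {x : X | g • x = h • x} = {x : X | (h⁻¹ * g) • x = x} := by
      ext x
      simp only [Set.mem_setOf_eq, mul_smul]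
      rw [inv_smul_eq_iff]
    rw [this]; exact hfix _
  have hBm : ∀ n k, MeasurableSet (B n k) := fun n k =>
    (hZm n).inter (Finset.measurableSet_biInter _ fun j _ => (hEqm _ _).compl)
  set A : ℕ → ℕ → Set X := fun n k => (fun x : X => (e k)⁻¹ • x) ⁻¹' (B n k) with hA
  have hAm : ∀ n k, MeasurableSet (A n k) := fun n k => (hmeas _) (hBm n k)
  have hAB : ∀ n k, μ (A n k) = μ (B n k) := by
    intro n k
    have h2 := Measure.map_apply (μ := μ) (hmeas (e k)⁻¹) (hBm n k)
    rw [hinv (e k)⁻¹] at h2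
    exact h2.symm
  have hdisj : ∀ n, Pairwise (Function.onFun Disjoint (A n)) := by
    intro n
    have key : ∀ j k, j < k → Disjoint (A n j) (A n k) := by
      intro j k hjk
      rw [Set.disjoint_left]
      intro y hy1 hy2
      have h1 : (e j)⁻¹ • y ∈ Z n := hy1.1
      have h2 : (e k)⁻¹ • y ∈ Z n := hy2.1
      have h3 : ((e j)⁻¹ * e k) • ((e k)⁻¹ • y) = (e j)⁻¹ • y := by
        rw [smul_smul]; simp
      have h4 := hZone n _ h2 ((e j)⁻¹ * e k) (by rw [h3]; exact h1)
      rw [h3] at h4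
      have h5 := hy2.2
      simp only [Set.mem_iInter, Finset.mem_range] at h5
      refine h5 j hjk ?_
      simp only [Set.mem_setOf_eq]
      conv_rhs => rw [← h4]
      rw [smul_inv_smul, smul_inv_smul]
    intro j k hjk
    rcases lt_or_gt_of_ne hjk with h | h
    · exact key j k h
    · exact (key k j h).symm
  have hsum : ∀ n, ∑' k, μ (B n k) ≠ ⊤ := by
    intro n
    have h1 : ∑' k, μ (B n k) = μ (⋃ k, A n k) := by
      rw [measure_iUnion (hdisj n) (hAm n)]
      exact tsum_congr fun k => (hAB n k).symm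
    rw [h1]; exact measure_ne_top _ _
  have hfin : ∀ᵐ x ∂μ, ∀ n, {k | x ∈ B n k}.Finite := by
    rw [ae_all_iff]
    intro n
    exact ae_finite_setOf_mem (hsum n)
  filter_upwards [hfin, hX₂ae] with x hx hx2
  have h1 := (hx (idx x)).image (fun k => e k • x)
  refine h1.subset ?_
  rintro y ⟨g, rfl⟩
  have hex : ∃ k, e k • x = g • x := by
    obtain ⟨k, hk⟩ := he g
    exact ⟨k, by rw [hk]⟩
  classical
  refine ⟨Nat.find hex, ?_, Nat.find_spec hex⟩
  refine ⟨⟨hx2, rfl⟩, ?_⟩
  simp only [Set.mem_iInter, Finset.mem_range]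
  intro j hj hc
  have h2 : e (Nat.find hex) • x = e j • x := hc
  rw [Nat.find_spec hex] at h2
  exact Nat.find_min hex hj h2.symm

end Pool.Agent.H58.PS
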