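/-
helper58: module FI (finite conjugacy under R) of helper10's board PS.
-/
import Pool.Agent.H10.PS.Targets

set_option autoImplicit false

open MeasureTheory Filter Topology
open scoped commutatorElement

namespace Pool.Agent.H58.PS

open Pool.Agent.H10.PS

theorem sub_fg {A : Type} [CommGroup A] [Group.FG A] (H : Subgroup A) : H.FG := by
  have h0 : Module.Finite ℤ (Additive A) := by
    rw [Module.Finite.iff_addGroup_fg]
    exact GroupFG.iff_add_fg.1 inferInstance
  have h1 : IsNoetherian ℤ (Additive A) := isNoetherian_of_isNoetherianRing_of_finite ℤ (Additive A)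
  rw [Subgroup.fg_iff_add_fg]
  have h2 := h1.noetherian (AddSubgroup.toIntSubmodule (Subgroup.toAddSubgroup H))
  rw [Submodule.fg_iff_addSubgroup_fg] at h2
  exact h2

/-- `H` is generated by a finite list and `H ∩ R`. -/
theorem exists_list {r : ℕ} (R : Subgroup (FG r)) (hR : R.Normal) (hc : commutator (FG r) ≤ R)
    (H : Subgroup (FG r)) : ∃ L : List (FG r), (∀ w ∈ L, w ∈ H) ∧
      ∀ w ∈ H, ∃ u ∈ Subgroup.closure {w | w ∈ L}, u ∈ H ∧ u⁻¹ * w ∈ R := by
  classical
  let inst : CommGroup (FG r ⧸ R) :=
    { (inferInstance : Group (FG r ⧸ R)) with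
      mul_comm := by
        intro a b
        induction a using QuotientGroup.induction_on with
        | H x =>
        induction b using QuotientGroup.induction_on with
        | H y =>
        rw [← QuotientGroup.mk_mul, ← QuotientGroup.mk_mul, QuotientGroup.eq]
        refine hc ?_
        have h1 : (x * y)⁻¹ * (y * x) = ⁅y⁻¹, x⁻¹⁆ := by
          rw [commutatorElement_def]; group
        rw [h1, commutator_def]
        exact Subgroup.commutator_mem_commutator (Subgroup.mem_top _) (Subgroup.mem_top _) }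
  have hfg : Group.FG (FG r ⧸ R) := inferInstance
  obtain ⟨S, hS⟩ := @sub_fg (FG r ⧸ R) inst hfg (H.map (QuotientGroup.mk' R))
  have hS2 : ∀ s ∈ S, ∃ w ∈ H, QuotientGroup.mk' R w = s := by
    intro s hs
    have h1 : s ∈ H.map (QuotientGroup.mk' R) := hS ▸ Subgroup.subset_closure hs
    exact h1
  choose! f hf1 hf2 using hS2
  refine ⟨(S.image f).toList, ?_, ?_⟩
  · intro w hw
    simp only [Finset.mem_toList, Finset.mem_image] at hw
    obtain ⟨s, hs, rfl⟩ := hw
    exact hf1 s hs
  · intro w hw
    have h1 : QuotientGroup.mk' R w ∈ Subgroup.map (QuotientGroup.mk' R)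
        (Subgroup.closure {w | w ∈ (S.image f).toList}) := by
      rw [MonoidHom.map_closure]
      have h2 : QuotientGroup.mk' R w ∈ H.map (QuotientGroup.mk' R) := ⟨w, hw, rfl⟩
      rw [← hS] at h2
      refine Subgroup.closure_mono ?_ h2
      intro s hs
      refine ⟨f s, ?_, hf2 s hs⟩
      simp only [Finset.mem_toList, Finset.mem_image, Set.mem_setOf_eq]
      exact ⟨s, hs, rfl⟩
    obtain ⟨u, hu, hu2⟩ := h1
    refine ⟨u, hu, ?_, ?_⟩
    · have h3 : Subgroup.closure {w | w ∈ (S.image f).toList} ≤ H := by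
        rw [Subgroup.closure_le]
        intro w hw
        simp only [Finset.mem_toList, Finset.mem_image, Set.mem_setOf_eq] at hw
        obtain ⟨s, hs, rfl⟩ := hw
        exact hf1 s hs
      exact h3 hu
    · rw [← QuotientGroup.eq]
      exact hu2

/-- the condition used in the definition of the index. -/
def PP {r : ℕ} (R : Subgroup (FG r)) (L : List (FG r)) (x : XX r) : Prop :=
  (∀ w : FG r, w ∈ L → x w = true) ∧
    ∀ w : FG r, x w = true → ∃ u : FG r, u ∈ Subgroup.closure {w | w ∈ L} ∧
      x (u⁻¹ * w) = true ∧ u⁻¹ * w ∈ R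

theorem meas_coord {r : ℕ} (w : FG r) : Measurable (fun x : XX r => (x w = true : Prop)) := by
  have h1 : MeasurableSet ((fun x : XX r => x w) ⁻¹' {true}) :=
    (measurable_pi_apply w) (measurableSet_singleton true)
  have h2 : ((fun x : XX r => x w) ⁻¹' {true}) = {x : XX r | x w = true} := by
    ext x; simp
  rw [h2] at h1
  exact measurableSet_setOfPred.1 h1

theorem meas_PP {r : ℕ} (R : Subgroup (FG r)) (L : List (FG r)) :
    Measurable (fun x : XX r => PP R L x) := by
  unfold PP
  refine Measurable.and ?_ ?_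
  · exact Measurable.forall fun w => Measurable.imp measurable_const (meas_coord w)
  · refine Measurable.forall fun w => Measurable.imp (meas_coord w) ?_
    refine Measurable.exists fun u => Measurable.and measurable_const ?_
    exact Measurable.and (meas_coord _) measurable_const

theorem FI (h : T_CO) : T_FI := by
  classical
  intro r R N hRn hNn hc hNR hRN μ hμ
  let act : MulAction R (XX r) :=
    { smul := fun a x => conjX (a : FG r) x
      one_smul := by
        intro x
        funext w
        change x (((1 : R) : FG r)⁻¹ * w * ((1 : R) : FG r)) = x w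
        simp
      mul_smul := by
        intro a b x
        funext w
        change x (((a * b : R) : FG r)⁻¹ * w * ((a * b : R) : FG r)) =
          x ((b : FG r)⁻¹ * ((a : FG r)⁻¹ * w * (a : FG r)) * (b : FG r))
        congr 1
        push_cast
        group }
  have hact : ∀ (a : R) (x : XX r), a • x = conjX (a : FG r) x := fun a x => rfl
  have hmeas : ∀ g : FG r, Measurable (conjX g) := by
    intro g
    exact measurable_pi_lambda _ fun w => measurable_pi_apply _
  obtain ⟨L, hL⟩ := exists_surjective_nat (List (FG r))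
  -- the index
  let Q : XX r → ℕ → Prop := fun x n => PP R (L n) x ∨ ¬ ∃ m, PP R (L m) x
  have hQ : ∀ x, ∃ n, Q x n := by
    intro x
    by_cases hx : ∃ m, PP R (L m) x
    · obtain ⟨m, hm⟩ := hx
      exact ⟨m, Or.inl hm⟩
    · exact ⟨0, Or.inr hx⟩
  let idx : XX r → ℕ := fun x => Nat.find (hQ x)
  have hidx : Measurable idx := by
    refine measurable_find hQ fun k => ?_
    have h1 : Measurable (fun x : XX r => Q x k) := by
      refine Measurable.or (meas_PP R (L k)) (Measurable.not ?_)
      exact Measurable.exists fun m => meas_PP R (L m)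
    exact measurableSet_setOfPred.2 h1
  let X₀ : Set (XX r) := {x | IsSub N x}
  have hPex : ∀ x ∈ X₀, ∃ m, PP R (L m) x := by
    rintro x ⟨H, hNH, hxH⟩
    obtain ⟨L₀, hL1, hL2⟩ := exists_list R hRn hc H
    obtain ⟨m, hm⟩ := hL L₀
    refine ⟨m, ?_, ?_⟩
    · intro w hw
      rw [hm] at hw
      exact (hxH w).2 (hL1 w hw)
    · intro w hw
      obtain ⟨u, hu1, hu2, hu3⟩ := hL2 w ((hxH w).1 hw)
      rw [hm]
      exact ⟨u, hu1, (hxH _).2 (H.mul_mem (H.inv_mem hu2) ((hxH w).1 hw)), hu3⟩
  have hPidx : ∀ x ∈ X₀, PP R (L (idx x)) x := by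
    intro x hx
    rcases Nat.find_spec (hQ x) with h1 | h1
    · exact h1
    · exact absurd (hPex x hx) h1
  have hinvX : ∀ x ∈ X₀, ∀ g : R, g • x ∈ X₀ := by
    rintro x ⟨H, hNH, hxH⟩ g
    refine ⟨H.comap (MulAut.conj (g : FG r)⁻¹).toMonoidHom, ?_, ?_⟩
    · intro w hw
      rw [Subgroup.mem_comap]
      refine hNH ?_
      have h1 := hNn.conj_mem w hw (g : FG r)⁻¹
      simpa [MulAut.conj_apply] using h1
    · intro w
      rw [hact, Subgroup.mem_comap]
      change x ((g : FG r)⁻¹ * w * (g : FG r)) = true ↔ _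
      rw [hxH]
      simp [MulAut.conj_apply]
  have hinj : ∀ x ∈ X₀, ∀ g : R, idx (g • x) = idx x → g • x = x := by
    intro x hx g hg
    have hx' := hinvX x hx g
    have hP1 := hPidx x hx
    have hP2 := hPidx _ hx'
    rw [hg] at hP2
    obtain ⟨H, hNH, hxH⟩ := hx
    obtain ⟨H', hNH', hxH'⟩ := hx'
    have hRR : ∀ w ∈ R, (x w = true ↔ (g • x) w = true) := by
      intro w hw
      rw [hact]
      change _ ↔ x ((g : FG r)⁻¹ * w * (g : FG r)) = true
      rw [hxH, hxH]
      have h1 : ((g : FG r)⁻¹ * w * (g : FG r)) * w⁻¹ ∈ H := by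
        refine hNH (hRN ?_)
        have h2 : ((g : FG r)⁻¹ * w * (g : FG r)) * w⁻¹ = ⁅(g : FG r)⁻¹, w⁆ := by
          rw [commutatorElement_def]; group
        rw [h2]
        exact Subgroup.commutator_mem_commutator (R.inv_mem g.2) hw
      constructor
      · intro h3
        have h4 := H.mul_mem h1 h3
        simpa using h4
      · intro h3
        have h4 := H.mul_mem (H.inv_mem h1) h3
        have h5 : (((g : FG r)⁻¹ * w * (g : FG r)) * w⁻¹)⁻¹ * ((g : FG r)⁻¹ * w * (g : FG r)) = w := by
          group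
        rwa [h5] at h4
    have hcl1 : ∀ u ∈ Subgroup.closure {w | w ∈ L (idx x)}, u ∈ H := by
      have h1 : Subgroup.closure {w | w ∈ L (idx x)} ≤ H := by
        rw [Subgroup.closure_le]
        intro w hw
        exact (hxH w).1 (hP1.1 w hw)
      exact fun u hu => h1 hu
    have hcl2 : ∀ u ∈ Subgroup.closure {w | w ∈ L (idx x)}, u ∈ H' := by
      have h1 : Subgroup.closure {w | w ∈ L (idx x)} ≤ H' := by
        rw [Subgroup.closure_le]
        intro w hw
        exact (hxH' w).1 (hP2.1 w hw)
      exact fun u hu => h1 hu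
    funext w
    rw [Bool.eq_iff_iff]
    constructor
    · intro hw
      obtain ⟨u, hu1, hu2, hu3⟩ := hP2.2 w hw
      have h1 := (hRR _ hu3).2 hu2
      rw [hxH] at h1 ⊢
      have h2 := H.mul_mem (hcl1 u hu1) h1
      rwa [mul_inv_cancel_left] at h2
    · intro hw
      obtain ⟨u, hu1, hu2, hu3⟩ := hP1.2 w hw
      have h1 := (hRR _ hu3).1 hu2
      rw [hxH'] at h1 ⊢
      have h2 := H'.mul_mem (hcl2 u hu1) h1
      rwa [mul_inv_cancel_left] at h2
  have hfix : ∀ g : R, MeasurableSet {x : XX r | g • x = x} := by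
    intro g
    have h1 : {x : XX r | g • x = x} = ⋂ w : FG r,
        {x : XX r | x ((g : FG r)⁻¹ * w * (g : FG r)) = x w} := by
      ext x
      simp only [Set.mem_setOf_eq, Set.mem_iInter]
      exact funext_iff
    rw [h1]
    refine MeasurableSet.iInter fun w => ?_
    have h2 : Measurable (fun x : XX r => (x ((g : FG r)⁻¹ * w * (g : FG r)), x w)) :=
      (measurable_pi_apply _).prodMk (measurable_pi_apply _)
    exact h2 (MeasurableSet.of_discrete (s := {p : Bool × Bool | p.1 = p.2}))
  have hmain := h (XX r) R μ hμ.prob (fun g => hmeas g) (fun g => hμ.inv g) hfix idx hidx X₀ hμ.sub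
    hinvX hinj
  filter_upwards [hmain] with x hx
  refine hx.subset ?_
  rintro y ⟨a, ha, rfl⟩
  exact ⟨⟨a, ha⟩, rfl⟩

end Pool.Agent.H58.PS
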